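import Mathlib

/-! Chebyshev type expansions evaluated on Fibonacci numbers. -/

namespace Pool.Agent.Lib.MP_0a65fc_nt

open Finset

/-- coefficients of the expansion -/
def B (s : ℕ) (b M : ℚ) : ℕ → ℚ
  | 0 => b
  | k + 1 => B s b M k * (((2 * k + s : ℚ) ^ 2 - M ^ 2) / (4 * (2 * k + s + 1) * (2 * k + s + 2)))

theorem ratio (s : ℕ) (b b' M : ℚ) (h : b * (M + 2) * (M + s) = b' * M * (M + 2 - s)) (k : ℕ) :
    B s b M k * (M + 2) * (M + (2 * k + s)) = B s b' (M + 2) k * M * (M + 2 - (2 * k + s)) := by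
  induction k with
  | zero => simpa [B] using h
  | succ k ih =>
    simp only [B]
    push_cast
    have : (4 * (2 * k + s + 1) * (2 * k + s + 2) : ℚ) ≠ 0 := by positivity
    field_simp
    linear_combination ((2 * k + s - M) * (M + 2 * k + s + 2)) * ih

theorem step (s : ℕ) (b b' b'' M : ℚ) (hM : 0 < M)
    (h : b * (M + 2) * (M + s) = b' * M * (M + 2 - s))
    (h' : b' * (M + 2 + 2) * (M + 2 + s) = b'' * (M + 2) * (M + 2 + 2 - s)) (k : ℕ) :
    B s b'' (M + 2 + 2) (k + 1) + B s b M (k + 1) =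
      2 * B s b' (M + 2) (k + 1) - B s b' (M + 2) k := by
  have r1 := ratio s b b' M h k
  have r2 := ratio s b' b'' (M + 2) h' k
  have e2 : B s b' (M + 2) k = B s b'' (M + 2 + 2) k * (M + 2) * (M + 2 + 2 - (2 * k + s)) /
      ((M + 2 + 2) * (M + 2 + (2 * k + s))) := by
    rw [eq_div_iff (by positivity), ← r2]; ring
  have e1 : B s b M k = B s b' (M + 2) k * M * (M + 2 - (2 * k + s)) /
      ((M + 2) * (M + (2 * k + s))) := by
    rw [eq_div_iff (by positivity), ← r1]; ring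
  simp only [B]
  rw [e1, e2]
  field_simp
  ring

theorem van (s : ℕ) (b M : ℚ) (j : ℕ) (h : M = 2 * j + s) (k : ℕ) (hk : j < k) : B s b M k = 0 := by
  induction k with
  | zero => omega
  | succ k ih =>
    rcases Nat.lt_succ_iff_lt_or_eq.1 hk with h1 | h1
    · simp only [B, ih h1, zero_mul]
    · subst h1; simp only [B, h, sub_self, zero_div, mul_zero]

/-- the sum against a sequence -/
def S (s : ℕ) (b : ℚ → ℚ) (j : ℕ) (G : ℕ → ℚ) : ℚ :=
  ∑ k ∈ range (j + 1), B s (b (2 * j + s)) (2 * j + s) k * G k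

theorem S_ext (s : ℕ) (b : ℚ → ℚ) (j K : ℕ) (hK : j + 1 ≤ K) (G : ℕ → ℚ) :
    ∑ k ∈ range K, B s (b (2 * j + s)) (2 * j + s) k * G k = S s b j G := by
  symm
  refine sum_subset (range_subset_range.2 hK) fun k _ hk => ?_
  rw [van s _ _ j rfl k (by simp only [mem_range] at hk; omega), zero_mul]

theorem S_rec (s : ℕ) (b : ℚ → ℚ) (hb : ∀ M, b M * (M + 2) * (M + s) = b (M + 2) * M * (M + 2 - s))
    (hb2 : ∀ M, b (M + 2 + 2) + b M = 2 * b (M + 2)) (j : ℕ) (hj : 0 < (2 * j + s : ℚ))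
    (G : ℕ → ℚ) :
    S s b (j + 2) G = 2 * S s b (j + 1) G - S s b (j + 1) (fun k => G (k + 1)) - S s b j G := by
  rw [← S_ext s b (j + 1) (j + 3) (by omega) G, ← S_ext s b j (j + 3) (by omega) G]
  unfold S
  have e1 : (2 * ((j + 1 : ℕ) : ℚ) + s) = 2 * j + s + 2 := by push_cast; ring
  have e2 : (2 * ((j + 2 : ℕ) : ℚ) + s) = 2 * j + s + 2 + 2 := by push_cast; ring
  rw [e1, e2, sum_range_succ' _ (j + 2), sum_range_succ' _ (j + 2), sum_range_succ' _ (j + 2)]
  have h := sum_congr rfl fun k (_ : k ∈ range (j + 2)) => congrArg (· * G (k + 1))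
    (step s _ _ _ _ hj (hb (2 * j + s)) (hb (2 * j + s + 2)) k)
  simp only [add_mul, sub_mul, sum_add_distrib, sum_sub_distrib, mul_assoc, ← mul_sum] at h
  simp only [B.eq_1]
  linear_combination h + G 0 * hb2 (2 * j + s)

theorem S_add (s : ℕ) (b : ℚ → ℚ) (j : ℕ) (G H : ℕ → ℚ) :
    S s b j (fun k => G k + H k) = S s b j G + S s b j H := by
  simp only [S, mul_add, sum_add_distrib]

/-- the pair of sums follows a table of period ten -/
theorem table (s : ℕ) (b : ℚ → ℚ) (hb : ∀ M, b M * (M + 2) * (M + s) = b (M + 2) * M * (M + 2 - s))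
    (hb2 : ∀ M, b (M + 2 + 2) + b M = 2 * b (M + 2)) (U Y : ℕ → ℚ)
    (hU : ∀ j, U (j + 2) = U (j + 1) - Y (j + 1) - U j) (hY : ∀ j, Y (j + 2) = -U (j + 1) - Y j)
    (h1 : S s b 1 (fun k => Nat.fib (2 * k + s)) = U 1 ∧
      S s b 1 (fun k => Nat.fib (2 * k + s + 1)) = Y 1)
    (h2 : S s b 2 (fun k => Nat.fib (2 * k + s)) = U 2 ∧
      S s b 2 (fun k => Nat.fib (2 * k + s + 1)) = Y 2) (j : ℕ) :
    S s b (j + 1) (fun k => Nat.fib (2 * k + s)) = U (j + 1) ∧
      S s b (j + 1) (fun k => Nat.fib (2 * k + s + 1)) = Y (j + 1) := by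
  induction j using Nat.twoStepInduction with
  | zero => exact h1
  | one => exact h2
  | more j i1 i2 =>
    have p : 0 < (2 * ((j + 1 : ℕ) : ℚ) + s) := by positivity
    have a1 : (fun k => (Nat.fib (2 * (k + 1) + s) : ℚ)) =
        fun k => (Nat.fib (2 * k + s) : ℚ) + Nat.fib (2 * k + s + 1) := funext fun k => by
      rw [show 2 * (k + 1) + s = 2 * k + s + 2 by ring, Nat.fib_add_two]; push_cast; ring
    have a2 : (fun k => (Nat.fib (2 * (k + 1) + s + 1) : ℚ)) = fun k => ((Nat.fib (2 * k + s) : ℚ) +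
        Nat.fib (2 * k + s + 1)) + Nat.fib (2 * k + s + 1) := funext fun k => by
      rw [show 2 * (k + 1) + s + 1 = 2 * k + s + 1 + 2 by ring, Nat.fib_add_two, Nat.fib_add_two]
      push_cast; ring
    constructor
    · rw [show j + 2 + 1 = j + 1 + 2 by ring, S_rec s b hb hb2 (j + 1) p, a1, S_add, i2.1, i2.2, i1.1,
        hU (j + 1)]; ring
    · rw [show j + 2 + 1 = j + 1 + 2 by ring, S_rec s b hb hb2 (j + 1) p, a2, S_add, S_add, i2.1,
        i2.2, i1.2, hY (j + 1)]; ring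

def t5 (a b c d e : ℚ) (j : ℕ) : ℚ :=
  if j % 5 = 0 then a else if j % 5 = 1 then b else if j % 5 = 2 then c else if j % 5 = 3 then d else e

theorem odd_val (j : ℕ) :
    S 1 id (j + 1) (fun k => Nat.fib (2 * k + 1)) = (-1) ^ (j + 1) * t5 1 (-1) 0 (-1) 1 (j + 1) ∧
    S 1 id (j + 1) (fun k => Nat.fib (2 * k + 1 + 1)) =
      (-1) ^ (j + 1) * t5 1 0 (-2) 0 1 (j + 1) := by
  refine table 1 id (fun M => by simp; ring) (fun M => by simp; ring)
    (fun j => (-1) ^ j * t5 1 (-1) 0 (-1) 1 j) (fun j => (-1) ^ j * t5 1 0 (-2) 0 1 j) ?_ ?_ ?_ ?_ j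
  · intro j
    have : j % 5 < 5 := Nat.mod_lt _ (by norm_num)
    simp only [t5, Nat.add_mod j, pow_succ]
    interval_cases j % 5 <;> norm_num <;> ring
  · intro j
    have : j % 5 < 5 := Nat.mod_lt _ (by norm_num)
    simp only [t5, Nat.add_mod j, pow_succ]
    interval_cases j % 5 <;> norm_num <;> ring
  · simp [S, B, t5, sum_range_succ, Nat.fib_add_two]; norm_num
  · simp [S, B, t5, sum_range_succ, Nat.fib_add_two]; norm_num

theorem even_val (j : ℕ) :
    S 0 (fun _ => 2) (j + 1) (fun k => Nat.fib (2 * k + 0)) =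
      (-1) ^ (j + 1) * t5 0 1 (-1) (-1) 1 (j + 1) ∧
    S 0 (fun _ => 2) (j + 1) (fun k => Nat.fib (2 * k + 0 + 1)) =
      (-1) ^ (j + 1) * t5 2 0 (-1) (-1) 0 (j + 1) := by
  refine table 0 _ (fun M => by simp; ring) (fun M => by norm_num)
    (fun j => (-1) ^ j * t5 0 1 (-1) (-1) 1 j) (fun j => (-1) ^ j * t5 2 0 (-1) (-1) 0 j) ?_ ?_ ?_ ?_ j
  · intro j
    have : j % 5 < 5 := Nat.mod_lt _ (by norm_num)
    simp only [t5, Nat.add_mod j, pow_succ]
    interval_cases j % 5 <;> norm_num <;> ring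
  · intro j
    have : j % 5 < 5 := Nat.mod_lt _ (by norm_num)
    simp only [t5, Nat.add_mod j, pow_succ]
    interval_cases j % 5 <;> norm_num <;> ring
  · simp [S, B, t5, sum_range_succ, Nat.fib_add_two]; norm_num
  · simp [S, B, t5, sum_range_succ, Nat.fib_add_two]; norm_num

theorem odd_cf (N : ℚ) (k : ℕ) : B 1 N N k = N / (2 * k + 1) * (k.centralBinom / 16 ^ k) *
    ∏ j ∈ range k, (1 - (N / (2 * j + 1)) ^ 2) := by
  induction k with
  | zero => simp [B]
  | succ k ih =>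
    have h : ((k + 1).centralBinom : ℚ) = 2 * (2 * k + 1) * k.centralBinom / (k + 1) := by
      rw [eq_div_iff (by positivity), mul_comm]
      exact_mod_cast Nat.succ_mul_centralBinom_succ k
    rw [B, ih, prod_range_succ, h]
    push_cast
    field_simp
    ring

theorem even_cf (N : ℚ) (k : ℕ) : B 0 2 (2 * N) (k + 1) =
    -2 * (N ^ 2 / ((k + 1) ^ 2 * (k + 1).centralBinom)) *
      ∏ j ∈ range k, (1 - (N / (j + 1)) ^ 2) := by
  induction k with
  | zero => simp [B, Nat.centralBinom]; ring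
  | succ k ih =>
    have h : ((k + 1 + 1).centralBinom : ℚ) =
        2 * (2 * (k + 1) + 1) * (k + 1).centralBinom / (k + 1 + 1) := by
      rw [eq_div_iff (by positivity), mul_comm]
      exact_mod_cast Nat.succ_mul_centralBinom_succ (k + 1)
    have h0 : (((k + 1).centralBinom : ℕ) : ℚ) ≠ 0 := by
      exact_mod_cast (k + 1).centralBinom_ne_zero
    rw [B, ih, prod_range_succ, h]
    push_cast
    field_simp
    ring

theorem top (s : ℕ) (b : ℚ → ℚ) (hb : ∀ M, b M * (M + 2) * (M + s) = b (M + 2) * M * (M + 2 - s))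
    (j0 : ℕ) (h0 : 0 < (2 * j0 + s : ℚ))
    (h1 : B s (b (2 * (j0 + 1 : ℕ) + s)) (2 * (j0 + 1 : ℕ) + s) (j0 + 1) = (-1) ^ (j0 + 1)) (j : ℕ)
    (hj : j0 ≤ j) : B s (b (2 * (j + 1 : ℕ) + s)) (2 * (j + 1 : ℕ) + s) (j + 1) = (-1) ^ (j + 1) := by
  induction j, hj using Nat.le_induction with
  | base => exact h1
  | succ j hj ih =>
    have hj' : (j0 : ℚ) ≤ j := by exact_mod_cast hj
    have e1 : (2 * ((j + 1 : ℕ) : ℚ) + s) = 2 * j + s + 2 := by push_cast; ring
    have e2 : (2 * ((j + 1 + 1 : ℕ) : ℚ) + s) = 2 * j + s + 2 + 2 := by push_cast; ring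
    have h := step s _ _ _ _ (show (0 : ℚ) < 2 * j + s by linarith) (hb (2 * j + s))
      (hb (2 * j + s + 2)) (j + 1)
    rw [van s _ _ j rfl (j + 1 + 1) (by omega), van s _ _ (j + 1) e1.symm (j + 1 + 1) (by omega)] at h
    rw [e1] at ih
    rw [e2, pow_succ, ← ih]
    linarith

end Pool.Agent.Lib.MP_0a65fc_nt
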