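import Pool.Agent.Lib.MP_0a65fc_nt.Pad

/-! Assembly. -/

namespace Pool.Agent.Lib.MP_0a65fc_nt

open Finset

theorem S_lin (s : ℕ) (b : ℚ → ℚ) (j : ℕ) (G H : ℕ → ℚ) :
    S s b j (fun k => 2 * G k - H k) = 2 * S s b j G - S s b j H := by
  simp only [S, mul_sub, sum_sub_distrib, mul_sum, mul_left_comm]

theorem main (p a : ℕ) (hp : p.Prime) (h2 : p ≠ 2) (h5 : p ≠ 5) (ha : 1 ≤ a) (L : ℕ → ℤ)
    (L0 : L 0 = 2) (L1 : L 1 = 1) (hL : ∀ n, L (n + 2) = L (n + 1) + L n) (ε : ℤ)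
    (hε : ε = jacobiSym ((p : ℤ) ^ a) 5) (q : ℚ)
    (hq : q = (Nat.fib ((p : ℤ) ^ a - ε).toNat : ℚ) / p) :
    q ∈ O hp ∧
    D hp 2 (p ^ (2 * a - 1) * ∑ k ∈ Ico 1 (p ^ a), (Nat.fib (2 * k) : ℚ) /
      (k ^ 2 * k.centralBinom) - -(ε : ℚ) * (3 * q / 2 + 5 * p * q ^ 2 / 4)) ∧
    D hp 2 (p ^ (2 * a - 1) * ∑ k ∈ Ico 1 (p ^ a), (L (2 * k) : ℚ) /
      (k ^ 2 * k.centralBinom) - (-(5 * q / 2) - 15 * p * q ^ 2 / 4)) ∧
    D hp 2 (p ^ (a - 1) * ∑ k ∈ range ((p ^ a - 1) / 2), k.centralBinom *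
      (Nat.fib (2 * k + 1) : ℚ) / ((2 * k + 1) * 16 ^ k) -
      (-1) ^ ((p ^ a + 1) / 2) * ε * (q / 2 + 5 * p * q ^ 2 / 8)) ∧
    D hp 2 (p ^ (a - 1) * ∑ k ∈ range ((p ^ a - 1) / 2), k.centralBinom *
      (L (2 * k + 1) : ℚ) / ((2 * k + 1) * 16 ^ k) -
      (-1) ^ ((p ^ a + 1) / 2) * (5 * q / 2 + 5 * p * q ^ 2 / 8)) := by
  have d2 : ¬ p ∣ 2 := fun h => h2 ((Nat.prime_dvd_prime_iff_eq hp Nat.prime_two).1 h)
  have p0 : (p : ℚ) ≠ 0 := by exact_mod_cast hp.ne_zero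
  have hLF : ∀ n, (L n : ℚ) = 2 * Nat.fib (n + 1) - Nat.fib n := fun n => by
    induction n using Nat.twoStepInduction with
    | zero => simp [L0]
    | one => simp [L1, Nat.fib_add_two]; norm_num
    | more n i1 i2 =>
      rw [hL, Int.cast_add, i1, i2, Nat.fib_add_two (n := n + 1), Nat.fib_add_two]
      push_cast; ring
  have N1 : 1 < p ^ a := Nat.one_lt_pow (by omega) hp.one_lt
  have Nodd : Odd (p ^ a) := (hp.odd_of_ne_two h2).pow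
  have N5 : p ^ a % 5 ≠ 0 := fun h => h5 ((Nat.prime_dvd_prime_iff_eq Nat.prime_five hp).1
    (Nat.prime_five.dvd_of_dvd_pow (Nat.dvd_of_mod_eq_zero h))).symm
  obtain ⟨n, hN⟩ : ∃ n, p ^ a = 2 * (n + 1) + 1 := by
    obtain ⟨m, hm⟩ := Nodd
    exact ⟨m - 1, by omega⟩
  have hN2 : p ^ a = 2 * (n + 1) + 1 := hN
  have zN : (p : ℤ) ^ a = 2 * (n + 1) + 1 := by exact_mod_cast hN
  have fO : ∀ k, (Nat.fib k : ℚ) ∈ O hp := fun k => natCast_mem _ _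
  have lO : ∀ k, 2 * (Nat.fib (k + 1) : ℚ) - Nat.fib k ∈ O hp := fun k =>
    sub_mem (mul_mem (ofNat_mem _ 2) (fO _)) (fO _)
  obtain ⟨a3, b3⟩ := oddD hp d2 hN (fun k => Nat.fib (2 * k + 1)) fun k => fO _
  obtain ⟨a4, b4⟩ := oddD hp d2 hN
    (fun k => 2 * (Nat.fib (2 * k + 1 + 1) : ℚ) - Nat.fib (2 * k + 1)) fun k => lO _
  have b1 := evenD hp (by omega) hN2 (fun k => Nat.fib (2 * k + 0)) fun k => fO _
  have b2 := evenD hp (by omega) hN2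
    (fun k => 2 * (Nat.fib (2 * k + 0 + 1) : ℚ) - Nat.fib (2 * k + 0)) fun k => lO _
  rw [S_lin, (odd_val n).1, (odd_val n).2] at b4
  rw [(odd_val n).1] at b3
  rw [S_lin, (even_val _).1, (even_val _).2] at b2
  rw [(even_val _).1] at b1
  have sg : (-1 : ℚ) ^ (2 * (n + 1) + 1) = -1 := Odd.neg_one_pow ⟨n + 1, rfl⟩
  have hc := cass (2 * (n + 1) + 1)
  have g1 : (Nat.fib (2 * (2 * (n + 1) + 1) + 0) : ℚ) = Nat.fib (2 * (n + 1) + 1) *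
      (2 * Nat.fib (2 * (n + 1) + 1 + 1) - Nat.fib (2 * (n + 1) + 1)) := by
    rw [add_zero, Nat.fib_two_mul, Nat.cast_mul, Nat.cast_sub
      (Nat.fib_le_fib_succ.trans (by omega))]
    push_cast; ring
  have g2 : (Nat.fib (2 * (2 * (n + 1) + 1) + 0 + 1) : ℚ) = Nat.fib (2 * (n + 1) + 1 + 1) ^ 2 +
      Nat.fib (2 * (n + 1) + 1) ^ 2 := by
    rw [add_zero, Nat.fib_two_mul_add_one]; push_cast; ring
  have g3 : (Nat.fib (2 * (n + 1) + 1 + 1) : ℚ) =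
      Nat.fib (2 * (n + 1)) + Nat.fib (2 * (n + 1) + 1) := by exact_mod_cast Nat.fib_add_two
  rw [sg] at hc b1 b2
  simp only [g1, g2] at b1 b2
  have tb : (ε = 1 ∨ ε = -1) ∧ t5 1 (-1) 0 (-1) 1 (n + 1) = ε ∧
      2 * t5 1 0 (-2) 0 1 (n + 1) = 1 + ε ∧ t5 0 1 (-1) (-1) 1 (2 * (n + 1) + 1) = ε ∧
      2 * t5 2 0 (-1) (-1) 0 (2 * (n + 1) + 1) = ε - 1 := by
    rw [hε, jacobiSym.mod_left, zN]
    rw [hN] at N5
    have h : n % 5 = 0 ∨ n % 5 = 2 ∨ n % 5 = 3 ∨ n % 5 = 4 := by omega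
    rcases h with h | h | h | h
    · rw [show (2 * ((n : ℤ) + 1) + 1) % (5 : ℕ) = 3 by omega]
      norm_num [t5, show (n + 1) % 5 = 1 by omega, show (2 * (n + 1) + 1) % 5 = 3 by omega]
    · rw [show (2 * ((n : ℤ) + 1) + 1) % (5 : ℕ) = 2 by omega]
      norm_num [t5, show (n + 1) % 5 = 3 by omega, show (2 * (n + 1) + 1) % 5 = 2 by omega]
    · rw [show (2 * ((n : ℤ) + 1) + 1) % (5 : ℕ) = 4 by omega]
      norm_num [t5, show (n + 1) % 5 = 4 by omega, show (2 * (n + 1) + 1) % 5 = 4 by omega]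
    · rw [show (2 * ((n : ℤ) + 1) + 1) % (5 : ℕ) = 1 by omega]
      norm_num [t5, show (n + 1) % 5 = 0 by omega, show (2 * (n + 1) + 1) % 5 = 1 by omega]
  obtain ⟨e1, t1, t2, t3, t4⟩ := tb
  have w1 : (p : ℚ) ^ a = p * p ^ (a - 1) := by rw [← pow_succ']; congr 1; omega
  have w2 : (p : ℚ) ^ (2 * a) = p * p ^ (2 * a - 1) := by rw [← pow_succ']; congr 1; omega
  rw [w1, mul_assoc] at a3 a4 b3 b4
  rw [w2, mul_assoc] at b1 b2
  have r1 : (p ^ a - 1) / 2 = n + 1 := by omega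
  have r2 : (-1 : ℚ) ^ ((p ^ a + 1) / 2) = -(-1) ^ (n + 1) := by
    rw [show (p ^ a + 1) / 2 = n + 1 + 1 by omega, pow_succ]; ring
  simp only [hLF, r1, r2]
  refine fin hp d2 (s := (-1) ^ (n + 1)) (x := Nat.fib (2 * (n + 1) + 1))
    (y := Nat.fib (2 * (n + 1) + 1 + 1)) ?_ ?_ (intCast_mem _ _)
    (pow_mem (neg_mem (one_mem _)) _) hc ?_ a3 a4 ?_ ?_ ?_ ?_
  · rcases e1 with rfl | rfl <;> norm_num
  · rw [← pow_mul, mul_comm, pow_mul]; norm_num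
  · rw [hq, mul_div_cancel₀ _ p0, zN]
    rcases e1 with rfl | rfl
    · rw [show (2 * ((n : ℤ) + 1) + 1 - 1).toNat = 2 * (n + 1) by omega, g3]; push_cast; ring
    · rw [show (2 * ((n : ℤ) + 1) + 1 - -1).toNat = 2 * (n + 1) + 1 + 1 by omega]; push_cast; ring
  · rw [t1] at b3; exact b3
  · convert b4 using 1
    linear_combination (-1) ^ (n + 1) * t1 - (-1) ^ (n + 1) * t2
  · convert b1 using 1
    simp only [add_zero, mul_zero, Nat.fib_zero, Nat.cast_zero]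
    linear_combination t3
  · convert b2 using 1
    simp only [add_zero, mul_zero, Nat.fib_zero, Nat.cast_zero, zero_add, Nat.fib_one, Nat.cast_one]
    linear_combination t4 - t3

end Pool.Agent.Lib.MP_0a65fc_nt
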