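import Pool.Agent.Lib.MP_0a65fc_nt.Cheb

/-! The congruences. -/

namespace Pool.Agent.Lib.MP_0a65fc_nt

open Finset

/-- rationals with denominator prime to `p` -/
def O {p : ℕ} (hp : p.Prime) : Subring ℚ where
  carrier := {x | ¬ p ∣ x.den}
  mul_mem' := fun {x y} hx hy h => (hp.dvd_mul.1 (h.trans (Rat.mul_den_dvd x y))).elim hx hy
  add_mem' := fun {x y} hx hy h => (hp.dvd_mul.1 (h.trans (Rat.add_den_dvd x y))).elim hx hy
  one_mem' := by simpa using hp.ne_one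
  zero_mem' := by simpa using hp.ne_one
  neg_mem' := fun {x} hx => by simpa using hx

variable {p : ℕ} (hp : p.Prime)

def D (m : ℕ) (x : ℚ) : Prop := ∃ c ∈ O hp, x = p ^ m * c

theorem inv_mem {n : ℕ} (h : ¬ p ∣ n) : (n : ℚ)⁻¹ ∈ O hp := by
  have h0 : n ≠ 0 := fun e => h (e ▸ dvd_zero p)
  change ¬ p ∣ ((n : ℚ)⁻¹).den
  rwa [Rat.inv_natCast_den_of_pos (Nat.pos_of_ne_zero h0)]

theorem D_sum {m : ℕ} (s : Finset ℕ) (f : ℕ → ℚ) (h : ∀ k ∈ s, D hp m (f k)) :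
    D hp m (∑ k ∈ s, f k) := by
  refine sum_induction f (D hp m) ?_ ⟨0, zero_mem _, by simp⟩ h
  rintro _ _ ⟨c, hc, rfl⟩ ⟨d, hd, rfl⟩
  exact ⟨c + d, add_mem hc hd, by ring⟩

theorem D_mul {m : ℕ} {x y : ℚ} (h : D hp m x) (hy : y ∈ O hp) : D hp m (x * y) := by
  obtain ⟨c, hc, rfl⟩ := h
  exact ⟨c * y, mul_mem hc hy, by ring⟩

theorem dv {n A : ℕ} (hn : n ≠ 0) (h : n.factorization p + 1 ≤ A) : D hp 1 ((p : ℚ) ^ A / n) := by
  obtain ⟨e, rfl⟩ := Nat.exists_eq_add_of_le h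
  have h1 := Nat.ordProj_mul_ordCompl_eq_self n p
  have h2 := Nat.not_dvd_ordCompl hp hn
  generalize ordCompl[p] n = m at h1 h2
  generalize n.factorization p = v at h1
  subst h1
  have m0 : (m : ℚ) ≠ 0 := by exact_mod_cast right_ne_zero_of_mul hn
  have p0 : (p : ℚ) ≠ 0 := by exact_mod_cast hp.ne_zero
  refine ⟨p ^ e * (m : ℚ)⁻¹, mul_mem (pow_mem (natCast_mem _ _) _) (inv_mem hp h2), ?_⟩
  push_cast
  field_simp
  ring

include hp in
theorem fl {n a : ℕ} (hn : n ≠ 0) (h : n < p ^ a) : n.factorization p + 1 ≤ a :=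
  (Nat.pow_lt_pow_iff_right hp.one_lt).1
    ((Nat.le_of_dvd (Nat.pos_of_ne_zero hn) (Nat.ordProj_dvd n p)).trans_lt h)

include hp in
theorem carry {k a : ℕ} (hk : k ≠ 0) (h : k < p ^ a) :
    (k ^ 2 * k.centralBinom).factorization p + 1 ≤ 2 * a := by
  have h1 := fl hp hk h
  have h2 : Nat.log p (k + k) < a + 1 := by
    refine Nat.log_lt_of_lt_pow (by omega) ?_
    have := hp.two_le
    rw [pow_succ]; nlinarith
  have h3 : k.centralBinom.factorization p ≤ (Ico (k.factorization p + 1) (a + 1)).card := by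
    rw [Nat.centralBinom, two_mul, Nat.factorization_choose' hp h2]
    refine card_le_card fun i hi => ?_
    obtain ⟨h4, h5⟩ := mem_filter.1 hi
    refine mem_Ico.2 ⟨?_, (mem_Ico.1 h4).2⟩
    by_contra h6
    have h7 : p ^ i ∣ k := (pow_dvd_pow p (by omega)).trans (Nat.ordProj_dvd k p)
    rw [Nat.mod_eq_zero_of_dvd h7] at h5
    have := pow_pos hp.pos i
    omega
  rw [Nat.factorization_mul (pow_ne_zero 2 hk) k.centralBinom_ne_zero, Nat.factorization_pow]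
  rw [Nat.card_Ico] at h3
  simp only [Finsupp.add_apply, Finsupp.smul_apply, smul_eq_mul]
  omega

theorem prodD (k : ℕ) (x : ℕ → ℚ) (h : ∀ j < k, D hp 1 (x j)) :
    D hp 2 (∏ j ∈ range k, (1 - x j ^ 2) - 1) := by
  induction k with
  | zero => exact ⟨0, zero_mem _, by simp⟩
  | succ k ih =>
    obtain ⟨c, hc, e⟩ := ih fun j hj => h j (by omega)
    obtain ⟨d, hd, e'⟩ := h k (by omega)
    refine ⟨c - d ^ 2 - p ^ 2 * c * d ^ 2, sub_mem (sub_mem hc (pow_mem hd _))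
      (mul_mem (mul_mem (pow_mem (natCast_mem _ _) _) hc) (pow_mem hd _)), ?_⟩
    rw [prod_range_succ, sub_eq_iff_eq_add.1 e, e']; ring

theorem D3 {x y : ℚ} (hx : D hp 1 x) (hy : D hp 2 (y - 1)) : D hp 3 (x * y - x) := by
  obtain ⟨c, hc, rfl⟩ := hx
  obtain ⟨d, hd, e⟩ := hy
  exact ⟨c * d, mul_mem hc hd, by rw [sub_eq_iff_eq_add.1 e]; ring⟩

theorem oddD (h2 : ¬ p ∣ 2) {a n : ℕ} (hN : p ^ a = 2 * (n + 1) + 1) (G : ℕ → ℚ)
    (hG : ∀ k, G k ∈ O hp) :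
    D hp 1 (p ^ a * ∑ k ∈ range (n + 1), k.centralBinom * G k / ((2 * k + 1) * 16 ^ k)) ∧
    D hp 3 (S 1 id (n + 1) G - (-1) ^ (n + 1) * G (n + 1) -
      p ^ a * ∑ k ∈ range (n + 1), k.centralBinom * G k / ((2 * k + 1) * 16 ^ k)) := by
  have hN' : (2 * ((n + 1 : ℕ) : ℚ) + (1 : ℕ)) = p ^ a := by exact_mod_cast hN.symm
  have d1 : ∀ k < n + 1, D hp 1 ((p : ℚ) ^ a / (2 * k + 1)) := fun k hk => by
    simpa using dv hp (n := 2 * k + 1) (by omega) (fl hp (by omega) (by omega : _ < p ^ a))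
  have d2 : ∀ k < n + 1, D hp 1 ((p : ℚ) ^ a / (2 * k + 1) * (k.centralBinom / 16 ^ k)) :=
    fun k hk => D_mul hp (d1 k hk) (by
      have : (16 : ℚ) ^ k = ((2 : ℕ) ^ 4) ^ k := by norm_num
      rw [div_eq_mul_inv, this, ← inv_pow, ← inv_pow]
      exact mul_mem (natCast_mem _ _) (pow_mem (pow_mem (inv_mem hp h2) _) _))
  have e : (p : ℚ) ^ a * ∑ k ∈ range (n + 1), k.centralBinom * G k / ((2 * k + 1) * 16 ^ k) =
      ∑ k ∈ range (n + 1), (p : ℚ) ^ a / (2 * k + 1) * (k.centralBinom / 16 ^ k) * G k := by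
    rw [mul_sum]; exact sum_congr rfl fun k _ => by field_simp
  rw [e]
  refine ⟨D_sum hp _ _ fun k hk => D_mul hp (d2 k (mem_range.1 hk)) (hG k), ?_⟩
  have t := top 1 id (fun M => by simp; ring) 0 (by norm_num) (by norm_num [B]) n (Nat.zero_le _)
  rw [S, sum_range_succ, t, add_sub_cancel_right, ← sum_sub_distrib, hN']
  refine D_sum hp _ _ fun k hk => ?_
  rw [← sub_mul, id, odd_cf]
  exact D_mul hp (D3 hp (d2 k (mem_range.1 hk))
    (prodD hp k _ fun j hj => d1 j (hj.trans (mem_range.1 hk)))) (hG k)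

theorem evenD {a m : ℕ} (hm : 1 ≤ m) (hN : p ^ a = m + 1) (G : ℕ → ℚ) (hG : ∀ k, G k ∈ O hp) :
    D hp 3 (S 0 (fun _ => 2) (m + 1) G - (-1) ^ (m + 1) * G (m + 1) - 2 * G 0 +
      2 * (p ^ (2 * a) * ∑ k ∈ Ico 1 (p ^ a), G k / (k ^ 2 * k.centralBinom))) := by
  have hN' : (2 * ((m + 1 : ℕ) : ℚ) + (0 : ℕ)) = 2 * p ^ a := by
    rw [← hN]; push_cast; ring
  have d1 : ∀ k < m, D hp 1 ((p : ℚ) ^ a / (k + 1)) := fun k hk => by
    simpa using dv hp (n := k + 1) (by omega) (fl hp (by omega) (by omega : _ < p ^ a))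
  have d2 : ∀ k < m, D hp 1 (-2 * (((p : ℚ) ^ a) ^ 2 / ((k + 1) ^ 2 * (k + 1).centralBinom))) :=
    fun k hk => by
      have := dv hp (mul_ne_zero (pow_ne_zero 2 (k.succ_ne_zero)) (k + 1).centralBinom_ne_zero)
        (carry hp k.succ_ne_zero (by omega : k + 1 < p ^ a))
      rw [mul_comm (-2 : ℚ), ← pow_mul, mul_comm a]
      exact D_mul hp (by simpa using this) (neg_mem (ofNat_mem _ 2))
  have t := top 0 (fun _ => 2) (fun M => by simp; ring) 1 (by norm_num) (by norm_num [B]) m hm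
  rw [S, sum_range_succ, t, add_sub_cancel_right, sum_range_succ', B.eq_1, add_sub_cancel_right,
    hN', sum_Ico_eq_sum_range, show p ^ a - 1 = m by omega, mul_sum, mul_sum, ← sum_add_distrib]
  refine D_sum hp _ _ fun k hk => ?_
  have := D_mul hp (D3 hp (d2 k (mem_range.1 hk))
    (prodD hp k _ fun j hj => d1 j (hj.trans (mem_range.1 hk)))) (hG (k + 1))
  rw [even_cf, add_comm 1 k]
  convert this using 1
  push_cast
  ring

theorem cass (n : ℕ) : (Nat.fib (n + 1) : ℚ) ^ 2 - Nat.fib (n + 1) * Nat.fib n - (Nat.fib n : ℚ) ^ 2 =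
    (-1) ^ n := by
  induction n with
  | zero => simp
  | succ n ih => rw [Nat.fib_add_two, pow_succ (-1 : ℚ), ← ih]; push_cast; ring

theorem fin (h2 : ¬ p ∣ 2) {e s x y q T1 T2 T3 T4 : ℚ} (he : e ^ 2 = 1) (hs : s ^ 2 = 1)
    (eO : e ∈ O hp) (sO : s ∈ O hp) (hc : y ^ 2 - y * x - x ^ 2 = -1)
    (hq : 2 * (p * q) = 2 * y - x - e * x) (a3 : D hp 1 (p * T3)) (a4 : D hp 1 (p * T4))
    (b3 : D hp 3 (s * e - s * x - p * T3)) (b4 : D hp 3 (s - s * (2 * y - x) - p * T4))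
    (b1 : D hp 3 (-e + x * (2 * y - x) + 2 * (p * T1)))
    (b2 : D hp 3 (1 + (2 * (y ^ 2 + x ^ 2) - x * (2 * y - x)) - 4 + 2 * (p * T2))) :
    q ∈ O hp ∧ D hp 2 (T1 - -e * (3 * q / 2 + 5 * p * q ^ 2 / 4)) ∧
      D hp 2 (T2 - (-(5 * q / 2) - 15 * p * q ^ 2 / 4)) ∧
      D hp 2 (T3 - -s * e * (q / 2 + 5 * p * q ^ 2 / 8)) ∧
      D hp 2 (T4 - -s * (5 * q / 2 + 5 * p * q ^ 2 / 8)) := by
  have p0 : (p : ℚ) ≠ 0 := by exact_mod_cast hp.ne_zero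
  have hh : (1 / 2 : ℚ) ∈ O hp := by simpa using inv_mem hp h2
  have pO : (p : ℚ) ∈ O hp := natCast_mem _ _
  obtain ⟨a3, ha3, e3⟩ := a3
  obtain ⟨a4, ha4, e4⟩ := a4
  obtain ⟨b3, hb3, f3⟩ := b3
  obtain ⟨b4, hb4, f4⟩ := b4
  obtain ⟨b1, hb1, f1⟩ := b1
  obtain ⟨b2, hb2, f2⟩ := b2
  obtain ⟨g, hg, eg⟩ : ∃ g ∈ O hp, e * x = 1 - p * g :=
    ⟨s * e * (a3 + p ^ 2 * b3), mul_mem (mul_mem sO eO) (add_mem ha3 (mul_mem (pow_mem pO _) hb3)),
      by linear_combination (-(s * e)) * f3 - s * e * e3 + s ^ 2 * he + (1 - e * x) * hs⟩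
  obtain ⟨g', hg', eg'⟩ : ∃ g ∈ O hp, 2 * y - x = 1 - p * g :=
    ⟨s * (a4 + p ^ 2 * b4), mul_mem sO (add_mem ha4 (mul_mem (pow_mem pO _) hb4)),
      by linear_combination (-s) * f4 - s * e4 + (1 - (2 * y - x)) * hs⟩
  have qO : q ∈ O hp := by
    have : q = 1 / 2 * (g - g') := mul_left_cancel₀ p0 (by linear_combination (hq + eg' - eg) / 2)
    rw [this]; exact mul_mem hh (sub_mem hg hg')
  have c5 : (5 : ℚ) ∈ O hp := ofNat_mem _ 5
  have c3 : (3 : ℚ) ∈ O hp := ofNat_mem _ 3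
  have q8 : 5 * (1 / 2) ^ 3 * q ^ 2 ∈ O hp := mul_mem (mul_mem c5 (pow_mem hh _)) (pow_mem qO _)
  set w : ℚ := e * x - 1 - p * q / 2 with hw
  have ew : w = 5 * (p * q) ^ 2 / 8 - w ^ 2 / 2 := by
    have l : 2 * y - x = e * x + 2 * (p * q) := by linarith
    have k : (e * x + 2 * (p * q)) ^ 2 - 5 * (e * x) ^ 2 = -4 := by
      rw [← l]; linear_combination 4 * hc - 5 * x ^ 2 * he
    rw [hw]; linear_combination (-1 / 8) * k
  obtain ⟨z, zO, ez⟩ : ∃ z ∈ O hp, w = p ^ 2 * z :=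
    ⟨5 * (1 / 2) ^ 3 * q ^ 2 - 1 / 2 * (g + 1 / 2 * q) ^ 2, sub_mem q8 (mul_mem hh (pow_mem
      (add_mem hg (mul_mem hh qO)) _)), by rw [ew, hw, eg]; ring⟩
  have ez2 : z = 5 * q ^ 2 / 8 - p ^ 2 * z ^ 2 / 2 :=
    mul_left_cancel₀ (pow_ne_zero 2 p0) (by rw [ez] at ew; linear_combination ew)
  have ef : e * x = 1 + p * q / 2 + p ^ 2 * z := by linear_combination ez
  have el : 2 * y - x = 1 + 5 * p * q / 2 + p ^ 2 * z := by linear_combination ef - hq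
  have ex : x = e * (1 + p * q / 2 + p ^ 2 * z) := by rw [← ef]; linear_combination (-x) * he
  have z2 : p * z ^ 2 ∈ O hp := mul_mem pO (pow_mem zO _)
  refine ⟨qO, ⟨1 / 2 * (b1 - e * (3 * (q * z))), mul_mem hh (sub_mem hb1
      (mul_mem eO (mul_mem c3 (mul_mem qO zO)))), mul_left_cancel₀ p0 ?_⟩,
    ⟨1 / 2 * (b2 - 5 * (q * z)), mul_mem hh (sub_mem hb2 (mul_mem c5 (mul_mem qO zO))),
      mul_left_cancel₀ p0 ?_⟩,
    ⟨1 / 2 * (s * e * (p * z ^ 2)) - b3, sub_mem (mul_mem hh (mul_mem (mul_mem sO eO) z2)) hb3,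
      mul_left_cancel₀ p0 ?_⟩,
    ⟨1 / 2 * (s * (p * z ^ 2)) - b4, sub_mem (mul_mem hh (mul_mem sO z2)) hb4,
      mul_left_cancel₀ p0 ?_⟩⟩
  · rw [el, ex] at f1
    linear_combination f1 / 2 - e * p ^ 2 * ez2
  · have : 2 * (y ^ 2 + x ^ 2) - x * (2 * y - x) = (2 * y - x) ^ 2 + 2 := by
      linear_combination (-2) * hc
    rw [this, el] at f2
    linear_combination f2 / 2 - p ^ 2 * ez2
  · rw [ex] at f3
    linear_combination -f3 - s * e * p ^ 2 * ez2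
  · rw [el] at f4
    linear_combination -f4 - s * p ^ 2 * ez2

end Pool.Agent.Lib.MP_0a65fc_nt
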