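import Pool.Agent.Lib.MP_0a65fc_nt.Main

namespace Pool.Agent.Lib.MP_0a65fc_nt.PrimePowers

open Finset

theorem result (p a : ℕ) (hp : p.Prime) (h2 : p ≠ 2) (h5 : p ≠ 5) (ha : 1 ≤ a) (L : ℕ → ℤ)
    (L0 : L 0 = 2) (L1 : L 1 = 1) (hL : ∀ n, L (n + 2) = L (n + 1) + L n) (ε : ℤ)
    (hε : ε = jacobiSym ((p : ℤ) ^ a) 5) (q : ℚ)
    (hq : q = (Nat.fib ((p : ℤ) ^ a - ε).toNat : ℚ) / p) :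
    ¬ p ∣ q.den ∧
    (∃ c : ℚ, ¬ p ∣ c.den ∧ (p : ℚ) ^ (2 * a - 1) * ∑ k ∈ Ico 1 (p ^ a), (Nat.fib (2 * k) : ℚ) /
      ((k : ℚ) ^ 2 * k.centralBinom) - -(ε : ℚ) * (3 * q / 2 + 5 * p * q ^ 2 / 4) = p ^ 2 * c) ∧
    (∃ c : ℚ, ¬ p ∣ c.den ∧ (p : ℚ) ^ (2 * a - 1) * ∑ k ∈ Ico 1 (p ^ a), (L (2 * k) : ℚ) /
      ((k : ℚ) ^ 2 * k.centralBinom) - (-(5 * q / 2) - 15 * p * q ^ 2 / 4) = p ^ 2 * c) ∧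
    (∃ c : ℚ, ¬ p ∣ c.den ∧ (p : ℚ) ^ (a - 1) * ∑ k ∈ range ((p ^ a - 1) / 2), k.centralBinom *
      (Nat.fib (2 * k + 1) : ℚ) / ((2 * k + 1) * 16 ^ k) -
      (-1) ^ ((p ^ a + 1) / 2) * ε * (q / 2 + 5 * p * q ^ 2 / 8) = p ^ 2 * c) ∧
    (∃ c : ℚ, ¬ p ∣ c.den ∧ (p : ℚ) ^ (a - 1) * ∑ k ∈ range ((p ^ a - 1) / 2), k.centralBinom *
      (L (2 * k + 1) : ℚ) / ((2 * k + 1) * 16 ^ k) -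
      (-1) ^ ((p ^ a + 1) / 2) * (5 * q / 2 + 5 * p * q ^ 2 / 8) = p ^ 2 * c) :=
  Pool.Agent.Lib.MP_0a65fc_nt.main p a hp h2 h5 ha L L0 L1 hL ε hε q hq

end Pool.Agent.Lib.MP_0a65fc_nt.PrimePowers
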